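import Pool.Agent.U352.CI.Graph
import Pool.Agent.Y449.MK.Sub

/-!
# Contractible invariant sets of closed affine manifolds with parallel volume

Let `M = Γ \ X` be a closed affine manifold with parallel volume and `H` a subgroup of finite index
of `Γ`. We prove that the affine holonomy group of `H` leaves no nonempty set `C` invariant which is
contractible by a locally Lipschitz homotopy and has no interior points. For affine subspaces and
algebraic subsets this is due to Goldman and Hirsch, for star-shaped sets it is a starting result.
More generally, the image of every locally Lipschitz equivariant map from a locally Lipschitz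
contractible `H`-space to the affine space has interior points.

Consequence for the conjecture of Markus: if `M = Γ \ Ω` is the quotient of a domain `Ω` of the
affine space and has a parallel volume then `Ω = E` (so `M` is complete) or the boundary of `Ω`
contains no locally Lipschitz contractible set which is invariant under a subgroup of finite index.
So `Ω` is not the domain above the graph of a locally Lipschitz function, and it is not the
complement of the graph of a locally Lipschitz map from a subspace to a complementary subspace.

Proof. There is an equivariant locally Lipschitz map `f` from `X` to every locally Lipschitz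
contractible `H`-space: it is constructed step by step over finitely many orbits of small open sets.
The integral over `M` of the Jacobian determinant of an equivariant map `X → E` is equal to the volume
of `M` (`W689.Mk.principle`, for locally Lipschitz maps). So the map to `E` has an invertible
derivative at some point, and then its image has interior points by Brouwer's theorem.
-/

set_option autoImplicit false

open Set Filter Topology

namespace Pool.Agent.Results.MP_df2bd8_gt.ContractibleInvariantSets

/-- A closed affine manifold `Γ \ X` with parallel volume, modelled on the vector space `E`: the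
group `Γ` acts on the space `X` freely, properly discontinuously and with compact quotient, and the
developing map `dev` is a local homeomorphism to `E` that is equivariant with respect to the affine
holonomy `hol`, which preserves the volume. -/
structure ClosedAffine (X Γ E : Type) [TopologicalSpace X] [Group Γ] [MulAction Γ X]
    [NormedAddCommGroup E] [NormedSpace ℝ E] (dev : X → E) (hol : Γ →* (E ≃ᵃ[ℝ] E)) : Prop where
  /-- the developing map is a local homeomorphism -/
  loc : IsLocalHomeomorph dev
  /-- the group acts by homeomorphisms -/
  cont : ∀ γ : Γ, Continuous fun x : X => γ • x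
  /-- the action is free -/
  free : ∀ (γ : Γ) (x : X), γ • x = x → γ = 1
  /-- the developing map is equivariant -/
  equi : ∀ (γ : Γ) (x : X), dev (γ • x) = hol γ (dev x)
  /-- the holonomy preserves the volume -/
  vol : ∀ γ : Γ, |LinearMap.det ((hol γ).linear : E →ₗ[ℝ] E)| = 1
  /-- the action is properly discontinuous -/
  pd : ∀ K : Set X, IsCompact K → {γ : Γ | ∃ x ∈ K, γ • x ∈ K}.Finite
  /-- the quotient is compact -/
  cc : ∃ K : Set X, IsCompact K ∧ ∀ x : X, ∃ γ : Γ, ∃ k ∈ K, γ • k = x

/-- `Y` is nonempty and contractible by a locally Lipschitz homotopy: there is a locally Lipschitz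
map `Φ` from `[0, 1] × Y` to `Y` such that `Φ (0, y) = y` and `Φ (1, y)` does not depend on `y`. -/
def LipContractible (Y : Type) [MetricSpace Y] : Prop :=
  ∃ (Φ : unitInterval × Y → Y) (p : Y), LocallyLipschitz Φ ∧ (∀ y, Φ (0, y) = y) ∧
    ∀ y, Φ (1, y) = p

section
variable {Γ E : Type} [Group Γ] [NormedAddCommGroup E] [NormedSpace ℝ E]

/-- the set `C` is invariant under the affine holonomy of `H` -/
def Invariant (hol : Γ →* (E ≃ᵃ[ℝ] E)) (H : Subgroup Γ) (C : Set E) : Prop :=
  ∀ γ ∈ H, ∀ p ∈ C, hol γ p ∈ C

/-- `C` is the graph of a locally Lipschitz map from a proper subspace to a complementary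
subspace. -/
def IsLipGraph (C : Set E) : Prop :=
  ∃ (F F' : Submodule ℝ E) (φ : F → F'), IsCompl F F' ∧ F ≠ ⊤ ∧ LocallyLipschitz φ ∧
    C = {x | ∃ u : F, x = (u : E) + (φ u : E)}

end

/-- Let `Γ \ X` be a closed affine manifold with parallel volume, and `H` a subgroup of finite index.

(1) Let `Y` be a locally Lipschitz contractible space with an action of `H` by locally Lipschitz maps,
and `q : Y → E` locally Lipschitz and equivariant. Then the image of `q` has interior points.

(2) Every locally Lipschitz contractible subset of `E` which is invariant under `H` has interior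
points. In particular it is not the graph of a locally Lipschitz map from a proper subspace to a
complementary one.

(3) Let the developing map be injective. If its image has no boundary points, or if the boundary is
the graph of a locally Lipschitz map from a proper subspace to a complementary one, or if the
boundary contains a locally Lipschitz contractible set which is invariant under `H`, then the manifold
is complete. -/
theorem result (X Γ E : Type) [NormedAddCommGroup E] [NormedSpace ℝ E] [FiniteDimensional ℝ E]
    [TopologicalSpace X] [T2Space X] [SecondCountableTopology X] [Nonempty X]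
    [Group Γ] [MulAction Γ X] (dev : X → E) (hol : Γ →* (E ≃ᵃ[ℝ] E))
    (D : ClosedAffine X Γ E dev hol) (H : Subgroup Γ) (hH : H.FiniteIndex) :
    (∀ (Y : Type) [MetricSpace Y] [MulAction H Y],
      (∀ γ : H, LocallyLipschitz fun y : Y => γ • y) → LipContractible Y →
      ∀ q : Y → E, LocallyLipschitz q → (∀ (γ : H) (y : Y), q (γ • y) = hol γ (q y)) →
      (interior (range q)).Nonempty) ∧
    (∀ C : Set E, Invariant hol H C → LipContractible C → (interior C).Nonempty) ∧
    (∀ C : Set E, Invariant hol H C → ¬ IsLipGraph C) ∧
    (Function.Injective dev →
      (frontier (range dev) = ∅ ∨ IsLipGraph (frontier (range dev)) ∨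
        ∃ C ⊆ frontier (range dev), Invariant hol H C ∧ LipContractible C) →
      IsHomeomorph dev) := by
  have D0 : Pool.Agent.W689.Mk.AffData X Γ E dev hol :=
    ⟨D.loc, D.cont, D.equi, D.vol, D.pd, D.cc⟩
  have D1 := Pool.Agent.Y449.MK.restrict D0 H hH
  have hfree : ∀ (γ : H) (x : X), γ • x = x → γ = 1 := by
    intro γ x h
    exact Subtype.ext (D.free γ x h)
  have h1 : ∀ (Y : Type) [MetricSpace Y] [MulAction H Y],
      (∀ γ : H, LocallyLipschitz fun y : Y => γ • y) → LipContractible Y →
      ∀ q : Y → E, LocallyLipschitz q → (∀ (γ : H) (y : Y), q (γ • y) = hol γ (q y)) →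
      (interior (range q)).Nonempty := by
    rintro Y _ _ hact ⟨Φ, p, hΦ, h0, h1⟩ q hq hqe
    exact Pool.Agent.U352.CI.markus D1 hfree hact hΦ h0 h1 hq hqe
  have h2 : ∀ C : Set E, Invariant hol H C → LipContractible C → (interior C).Nonempty := by
    intro C hC hL
    let A : MulAction H C :=
      { smul := fun γ y => ⟨hol γ y, hC γ γ.2 y y.2⟩
        one_smul := fun y => Subtype.ext (by
          show hol ((1 : H) : Γ) (y : E) = y
          rw [Subgroup.coe_one, map_one]
          rfl)
        mul_smul := fun γ δ y => Subtype.ext (by
          show hol ((γ * δ : H) : Γ) (y : E) = hol γ (hol δ y)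
          rw [Subgroup.coe_mul, map_mul]
          rfl) }
    have hact : ∀ γ : H, LocallyLipschitz fun y : C => A.smul γ y := by
      intro γ
      refine Pool.Agent.U352.CI.locLip_mk (f := fun y : C => hol γ (y : E)) ?_ _
      have e1 : ContDiff ℝ 1 fun p : E => hol γ p := by
        have e2 : (fun p : E => hol γ p) = fun p =>
            LinearMap.toContinuousLinearMap ((hol γ).linear : E →ₗ[ℝ] E) p + hol γ 0 := by
          funext p
          have := Pool.Agent.W689.Mk.hol_add (hol := hol) (γ : Γ) 0 p
          rw [zero_add] at this
          rw [this, add_comm]
          rfl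
        rw [e2]
        exact (ContinuousLinearMap.contDiff _).add contDiff_const
      exact e1.locallyLipschitz.comp (LipschitzWith.subtype_val C).locallyLipschitz
    have h3 := @h1 C _ A hact hL (fun y => (y : E)) (LipschitzWith.subtype_val C).locallyLipschitz
      (fun γ y => rfl)
    rwa [Subtype.range_coe] at h3
  have h3 : ∀ C : Set E, Invariant hol H C → ¬ IsLipGraph C := by
    rintro C hC ⟨F, F', φ, hc, hF, hφ, hCe⟩
    have h4 := h2 C hC (Pool.Agent.U352.CI.graph_lipC hc hφ hCe)
    rw [hCe, Pool.Agent.U352.CI.graph_interior hc hF hφ] at h4
    exact h4.ne_empty rfl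
  have hopen : IsOpen (range dev) := D.loc.isOpenMap.isOpen_range
  have hfi : interior (frontier (range dev)) = ∅ := by
    rw [← frontier_compl]
    exact interior_frontier hopen.isClosed_compl
  have hfr : Invariant hol H (frontier (range dev)) := by
    intro γ _ p hp
    let e : E ≃ₜ E := (hol γ).toContinuousAffineEquiv.toHomeomorph
    have e1 : e '' range dev = range dev := by
      ext y
      constructor
      · rintro ⟨_, ⟨x, rfl⟩, rfl⟩
        exact ⟨γ • x, D.equi γ x⟩
      · rintro ⟨x, rfl⟩
        refine ⟨dev (γ⁻¹ • x), ⟨_, rfl⟩, ?_⟩
        show hol γ (dev (γ⁻¹ • x)) = dev x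
        rw [← D.equi, smul_inv_smul]
    have e2 : e '' frontier (range dev) = frontier (range dev) := by
      rw [e.image_frontier, e1]
    rw [← e2]
    exact ⟨p, hp, rfl⟩
  refine ⟨fun Y => h1 Y, h2, h3, fun hinj hcase => ?_⟩
  rcases hcase with h | h | ⟨C, hCs, hC, hL⟩
  · have h5 : IsClopen (range dev) := by
      refine ⟨?_, hopen⟩
      rw [← closure_eq_iff_isClosed, closure_eq_self_union_frontier, h, union_empty]
    have h6 : range dev = univ := h5.eq_univ (range_nonempty dev)
    exact ⟨D.loc.continuous, D.loc.isOpenMap, hinj, range_eq_univ.1 h6⟩
  · exact absurd h (h3 _ hfr)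
  · have h7 := h2 C hC hL
    have h8 : interior C ⊆ ∅ := by
      rw [← hfi]
      exact interior_mono hCs
    exact absurd (subset_empty_iff.1 h8) h7.ne_empty

end Pool.Agent.Results.MP_df2bd8_gt.ContractibleInvariantSets
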