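import Pool.Agent.U352.AF.Fin

/-!
# Translations in the holonomy of a closed affine manifold

Let `M = Γ \ Ω` be a closed affine manifold which is the quotient of a domain `Ω` of the affine
space `E`, and let `V` be a subspace which is spanned by translations in `Γ` (or in a subgroup of
finite index) and invariant. Then `Ω` is a union of leaves `x + V`, the leaf space `Ω / V` is a domain
of `E / V`, and `Γ` acts on it properly discontinuously (modulo the kernel) and with compact
quotient. This is a closed affine orbifold of smaller dimension; it is complete if and only if `M`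
is complete, and it has a parallel volume if `M` has one. Then one can look for translations again,
and so on: this gives towers `0 = V 0 ⊆ V 1 ⊆ … ⊆ V m`. If the Markus conjecture holds for the
orbifold then it holds for `M`; in particular this is the case if the linear holonomy on `E / V m`
is solvable, or uniformly quasi-conformal on the quotients of some flag. There is no condition on
the linear holonomy on the `V (i + 1) / V i`.

Idea: if `Ω` is not a union of leaves, then approach a boundary point along a leaf, and move the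
points into a compact subset by elements of the group. The pull backs of a small ball around the
compact set are ellipsoids in the leaf, whose volumes are bounded from below, since the group
preserves the lattice of the translations. Infinitely many of them are disjoint modulo this
lattice, by proper discontinuity. But a torus has finite volume.
-/

set_option autoImplicit false

open Set Filter Topology

namespace Pool.Agent.Results.MP_df2bd8_gt.TranslationTowers

/-- A closed affine manifold (or orbifold) `Γ \ X` modelled on the vector space `E`: the group `Γ`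
acts on the space `X` properly discontinuously and with compact quotient, and the developing map
`dev` is a local homeomorphism to `E` that is equivariant with respect to the affine holonomy
`hol`. -/
structure ClosedAffine (X Γ E : Type) [TopologicalSpace X] [Group Γ] [MulAction Γ X]
    [NormedAddCommGroup E] [NormedSpace ℝ E] (dev : X → E) (hol : Γ →* (E ≃ᵃ[ℝ] E)) : Prop where
  /-- the developing map is a local homeomorphism -/
  loc : IsLocalHomeomorph dev
  /-- the group acts by homeomorphisms -/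
  cont : ∀ γ : Γ, Continuous fun x : X => γ • x
  /-- the developing map is equivariant -/
  equi : ∀ (γ : Γ) (x : X), dev (γ • x) = hol γ (dev x)
  /-- the action is properly discontinuous -/
  pd : ∀ K : Set X, IsCompact K → {γ : Γ | ∃ x ∈ K, γ • x ∈ K}.Finite
  /-- the quotient is compact -/
  cc : ∃ K : Set X, IsCompact K ∧ ∀ x : X, ∃ γ : Γ, ∃ k ∈ K, γ • k = x

section
variable {Γ E : Type} [Group Γ] [NormedAddCommGroup E] [NormedSpace ℝ E]

/-- the linear holonomy of `H` preserves `V` -/
def Invariant (hol : Γ →* (E ≃ᵃ[ℝ] E)) (H : Subgroup Γ) (V : Submodule ℝ E) : Prop :=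
  ∀ γ ∈ H, ∀ v ∈ V, (hol γ).linear v ∈ V

/-- `γ` acts on `E / V` as a translation by a vector of `W / V` -/
def TranslatesModulo (hol : Γ →* (E ≃ᵃ[ℝ] E)) (V W : Submodule ℝ E) (γ : Γ) : Prop :=
  (∀ v, (hol γ).linear v - v ∈ V) ∧ hol γ 0 ∈ W

/-- A tower of invariant subspaces `0 = V 0 ⊆ V 1 ⊆ … ⊆ V m` such that `V (i + 1) / V i` is spanned
by vectors `v` for which some element of `H` acts on `E / V i` as the translation by `v`. -/
def Tower (hol : Γ →* (E ≃ᵃ[ℝ] E)) (H : Subgroup Γ) (V : ℕ → Submodule ℝ E) (m : ℕ) : Prop :=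
  V 0 = ⊥ ∧ (∀ i < m, V i ≤ V (i + 1)) ∧ (∀ i ≤ m, Invariant hol H (V i)) ∧
    ∀ i < m, V (i + 1) ≤ V i ⊔ Submodule.span ℝ
      {v | ∃ γ ∈ H, TranslatesModulo hol (V i) (V (i + 1)) γ ∧ hol γ 0 = v}

/-- The linear holonomy of `H` is solvable modulo `V`: some derived subgroup of `H` acts trivially
on the vector space `E / V`. -/
def SolvableAbove (hol : Γ →* (E ≃ᵃ[ℝ] E)) (H : Subgroup Γ) (V : Submodule ℝ E) : Prop :=
  ∃ j : ℕ, ∀ γ ∈ derivedSeries H j, ∀ v, (hol (γ : Γ)).linear v - v ∈ V

/-- The linear holonomy of `H` preserves a flag `V = S 0 ⊆ S 1 ⊆ … ⊆ S l = E`, and acts on the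
quotients `S (i + 1) / S i` by uniformly quasi-conformal maps: there is one constant `C`, and for
all `γ` in `H` and `i < l` a factor `c > 0`, such that the linear part of `hol γ` multiplies the
quotient norm of `S (i + 1) / S i` at most by `C * c`, and its inverse at most by `C / c`. -/
def ConformalAbove (hol : Γ →* (E ≃ᵃ[ℝ] E)) (H : Subgroup Γ) (V : Submodule ℝ E) : Prop :=
  ∃ (S : ℕ → Submodule ℝ E) (l : ℕ), S 0 = V ∧ S l = ⊤ ∧ (∀ i < l, S i ≤ S (i + 1)) ∧
    (∀ i ≤ l, Invariant hol H (S i)) ∧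
    ∃ C : ℝ, ∀ i < l, ∀ γ ∈ H, ∃ c : ℝ, 0 < c ∧ ∀ v ∈ S (i + 1),
      (∃ w ∈ S i, ‖(hol γ).linear v - w‖ ≤ C * c * ‖v‖) ∧
      ∃ w ∈ S i, ‖(hol γ⁻¹).linear v - w‖ ≤ C * c⁻¹ * ‖v‖

/-- the affine maps in `G` preserve the volume -/
def PreservesVolume (G : Subgroup (E ≃ᵃ[ℝ] E)) : Prop :=
  ∀ g ∈ G, |LinearMap.det (g.linear : E →ₗ[ℝ] E)| = 1

/-- some subgroup of finite index of `Γ` acts on `E` through a solvable group -/
def VirtuallySolvable (hol : Γ →* (E ≃ᵃ[ℝ] E)) : Prop :=
  ∃ H' : Subgroup Γ, H'.FiniteIndex ∧ Group.IsSolvable (H'.map hol)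

/-- the group `G` acts on the open set `Ω`, properly discontinuously and with compact quotient -/
structure ProperCocompact (G : Subgroup (E ≃ᵃ[ℝ] E)) (Ω : Set E) : Prop where
  isOpen : IsOpen Ω
  inv : ∀ g ∈ G, ∀ x ∈ Ω, g x ∈ Ω
  pd : ∀ K ⊆ Ω, IsCompact K → {g : E ≃ᵃ[ℝ] E | g ∈ G ∧ ∃ x ∈ K, g x ∈ K}.Finite
  cc : ∃ K ⊆ Ω, IsCompact K ∧ ∀ x ∈ Ω, ∃ g ∈ G, g x ∈ K

/-- `π` is a surjective linear map with kernel `V`, and `G` is the group of the affine maps of `Q`
which are induced by the elements of `H`. -/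
structure Induced {Q : Type} [NormedAddCommGroup Q] [NormedSpace ℝ Q] (hol : Γ →* (E ≃ᵃ[ℝ] E))
    (H : Subgroup Γ) (V : Submodule ℝ E) (π : E →ₗ[ℝ] Q) (G : Subgroup (Q ≃ᵃ[ℝ] Q)) : Prop where
  surj : Function.Surjective π
  ker : LinearMap.ker π = V
  induces : ∀ γ ∈ H, ∃ g ∈ G, ∀ x, g (π x) = π (hol γ x)
  induced : ∀ g ∈ G, ∃ γ ∈ H, ∀ x, g (π x) = π (hol γ x)

/-- The quotient of `Ω` by `V`: the group `G` induced by `H` on `Q = E / V` acts on the open subset
`π Ω` of `Q` properly discontinuously and with compact quotient, preserves the volume if `H` does, and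
`π Ω` is equal to `Q` if and only if `Ω` is equal to `E`. -/
def QuotientOrbifold (hol : Γ →* (E ≃ᵃ[ℝ] E)) (H : Subgroup Γ) (Ω : Set E)
    (V : Submodule ℝ E) : Prop :=
  ∃ (Q : Type) (_ : NormedAddCommGroup Q) (_ : NormedSpace ℝ Q) (π : E →ₗ[ℝ] Q)
    (G : Subgroup (Q ≃ᵃ[ℝ] Q)), Induced hol H V π G ∧ ProperCocompact G (π '' Ω) ∧
      (PreservesVolume (H.map hol) → PreservesVolume G) ∧ (Ω = univ ↔ π '' Ω = univ)

end

/-- Let `M = Γ \ X` be a closed affine manifold (or orbifold) with injective developing map, so that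
it is the quotient of the domain `Ω = range dev` of `E`, let `H` be a subgroup of finite index, and
let `0 = V 0 ⊆ V 1 ⊆ … ⊆ V m` be a tower of translations. Then `Ω` is a union of leaves `x + V m`, and
the quotient by `V m` is a closed affine orbifold `G \ Ω'` with `Ω' ⊆ E / V m` open, which has a
parallel volume if `M` has one, and which is complete if and only if `M` is complete.

If moreover `M` has a parallel volume, and the linear holonomy of `H` on `E / V m` is solvable or
uniformly quasi-conformal on the quotients of a flag, then `M` is complete and its holonomy group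
is virtually solvable. -/
theorem result (X Γ E : Type) [NormedAddCommGroup E] [NormedSpace ℝ E]
    [FiniteDimensional ℝ E] [TopologicalSpace X] [Nonempty X] [Group Γ] [MulAction Γ X]
    (dev : X → E) (hol : Γ →* (E ≃ᵃ[ℝ] E)) (D : ClosedAffine X Γ E dev hol)
    (hinj : Function.Injective dev) (H : Subgroup Γ) (hH : H.FiniteIndex)
    (V : ℕ → Submodule ℝ E) (m : ℕ) (hV : Tower hol H V m) :
    (∀ x : X, ∀ v ∈ V m, dev x + v ∈ range dev) ∧ QuotientOrbifold hol H (range dev) (V m) ∧
    (PreservesVolume hol.range → SolvableAbove hol H (V m) ∨ ConformalAbove hol H (V m) →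
      IsHomeomorph dev ∧ VirtuallySolvable hol) := by
  have D0 := Pool.Agent.U352.AF.toDom D.loc D.equi D.pd D.cc hinj
  have DH := D0.restrict H hH
  have hne : (range dev).Nonempty := range_nonempty dev
  obtain ⟨t1, t2, t3, t4⟩ := hV
  have T : Pool.Agent.U352.AF.Tower (hol.comp H.subtype) V m := by
    refine ⟨t1, t2, fun i hi γ => t3 i hi γ γ.2, fun i hi => (t4 i hi).trans ?_⟩
    refine sup_le_sup_left (Submodule.span_mono ?_) _
    rintro v ⟨γ, hγ, h1, h2⟩
    exact ⟨⟨γ, hγ⟩, h1, h2⟩
  obtain ⟨Q, i1, i2, i3, π, hol₁, q⟩ := Pool.Agent.U352.AF.tower_quot m DH hne T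
  refine ⟨fun x v hv => q.sat _ ⟨x, rfl⟩ v hv, ⟨Q, i1, i2, π, hol₁.range, ?_, ?_, ?_, ?_⟩, ?_⟩
  · refine ⟨q.isQuot.surj, ?_, ?_, ?_⟩
    · ext x
      rw [LinearMap.mem_ker, q.isQuot.ker]
    · exact fun γ hγ => ⟨hol₁ ⟨γ, hγ⟩, ⟨_, rfl⟩, q.isQuot.equi ⟨γ, hγ⟩⟩
    · rintro _ ⟨γ, rfl⟩
      exact ⟨γ, γ.2, q.isQuot.equi γ⟩
  · refine ⟨q.dom.isOpen, fun g hg x hx => q.dom.inv ⟨g, hg⟩ x hx, ?_, ?_⟩
    · intro K hK hKc
      refine ((q.dom.pd K hK hKc).image Subtype.val).subset ?_
      rintro g ⟨hg, hx⟩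
      exact ⟨⟨g, hg⟩, hx, rfl⟩
    · obtain ⟨K, hK, hKc, hcc⟩ := q.dom.cc
      refine ⟨K, hK, hKc, fun x hx => ?_⟩
      obtain ⟨g, hg⟩ := hcc x hx
      exact ⟨g, g.2, hg⟩
  · rintro h _ ⟨γ, rfl⟩
    rw [q.det γ]
    exact h _ ⟨γ, γ.2, rfl⟩
  · refine ⟨fun h => ?_, q.full⟩
    rw [h, image_univ]
    exact q.isQuot.surj.range_eq
  · intro hdet h
    have h' : Pool.Agent.U352.AF.CA (hol.comp H.subtype) (V m) ∨
        Pool.Agent.U352.AF.SA (hol.comp H.subtype) (V m) := by
      rcases h with h | ⟨S, l, h0, hl, h1, h2, C, hC⟩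
      · exact Or.inr h
      · exact Or.inl ⟨S, l, h0, hl, h1, fun i hi γ => h2 i hi γ γ.2, C,
          fun i hi γ => hC i hi γ γ.2⟩
    obtain ⟨hΩ, hvs⟩ := Pool.Agent.U352.AF.final DH hne (fun γ => hdet _ ⟨γ, rfl⟩) T h'
    exact ⟨Pool.Agent.U352.AF.homeo_of_full D.loc hinj hΩ,
      Pool.Agent.U352.AF.vs_restrict H hH hvs⟩

end Pool.Agent.Results.MP_df2bd8_gt.TranslationTowers
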