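import Pool.Agent.U352.UH.Logs
import Pool.Agent.U352.AF.Fin

/-!
# The hull of a unipotent abelian commensurated subgroup of an affine manifold

Let `M = Γ \ Ω` be a closed affine manifold which is the quotient of a domain `Ω` of the affine
space `E`, and let `A` be an abelian subgroup with unipotent linear holonomy which is normalised up
to powers by a subgroup of finite index (for example a normal or a commensurated subgroup). We do not assume that there is a parallel volume, or anything else on the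
linear holonomy of `Γ`. Then `Ω` is invariant under the connected unipotent group `exp 𝔞`, where
`𝔞` is the real span of the logarithms of the elements of `A`. This group acts on `Ω` freely and
properly, and the logarithms of the elements of `A` form a lattice in `𝔞`. In particular the rank
of `A` is at most the dimension of `E`, and no point of the boundary of `Ω` can be reached along an
orbit.

Idea: if the orbit of `x` leaves `Ω`, then approach the first boundary point along the orbit and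
move the points into a compact subset by elements of `Γ`. The pull backs of a small ball of the
hull around this compact set are ellipsoids in `𝔞`, which have the same volume: the images of the
lattice of the logarithms under `Γ` are uniformly discrete. By proper discontinuity infinitely many of them are disjoint modulo
this lattice (or the points stay in a compact subset of `Ω` modulo `A`). But the volume of the torus
`𝔞 / log A` is finite.
-/

set_option autoImplicit false

open Set Filter Topology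

namespace Pool.Agent.Results.MP_df2bd8_gt.UnipotentHull

/-- A closed affine manifold (or orbifold) `Γ \ X` modelled on the vector space `E`: the group `Γ`
acts on the space `X` properly discontinuously and with compact quotient, and the developing map
`dev` is a local homeomorphism to `E` that is equivariant with respect to the affine holonomy
`hol`. -/
structure ClosedAffine (X Γ E : Type) [TopologicalSpace X] [Group Γ] [MulAction Γ X]
    [NormedAddCommGroup E] [NormedSpace ℝ E] (dev : X → E) (hol : Γ →* (E ≃ᵃ[ℝ] E)) : Prop where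
  /-- the developing map is a local homeomorphism -/
  loc : IsLocalHomeomorph dev
  /-- the group acts by homeomorphisms -/
  cont : ∀ γ : Γ, Continuous fun x : X => γ • x
  /-- the developing map is equivariant -/
  equi : ∀ (γ : Γ) (x : X), dev (γ • x) = hol γ (dev x)
  /-- the action is properly discontinuous -/
  pd : ∀ K : Set X, IsCompact K → {γ : Γ | ∃ x ∈ K, γ • x ∈ K}.Finite
  /-- the quotient is compact -/
  cc : ∃ K : Set X, IsCompact K ∧ ∀ x : X, ∃ γ : Γ, ∃ k ∈ K, γ • k = x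

section
variable {Γ E : Type} [Group Γ] [NormedAddCommGroup E] [NormedSpace ℝ E]

/-- The affine map `g` of `E` as a linear map of `E × ℝ`; we identify `E` with `E × {1}`. -/
noncomputable def ext [FiniteDimensional ℝ E] (g : E ≃ᵃ[ℝ] E) : (E × ℝ) →L[ℝ] (E × ℝ) :=
  LinearMap.toContinuousLinearMap
    (((g.linear : E →ₗ[ℝ] E).comp (LinearMap.fst ℝ E ℝ) +
      (LinearMap.snd ℝ E ℝ).smulRight (g 0)).prod (LinearMap.snd ℝ E ℝ))

/-- the linear part of the affine map `g` is unipotent -/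
def LinearlyUnipotent (g : E ≃ᵃ[ℝ] E) : Prop :=
  ∃ k : ℕ, ((g.linear : E →ₗ[ℝ] E) - LinearMap.id) ^ k = 0

/-- The logarithms of the elements of `A`: the nilpotent operators `ξ` on `E × ℝ` such that
`exp ξ` is the holonomy of an element of `A`. -/
def Logs [FiniteDimensional ℝ E] (hol : Γ →* (E ≃ᵃ[ℝ] E)) (A : Subgroup Γ) :
    Set ((E × ℝ) →L[ℝ] (E × ℝ)) :=
  {ξ | IsNilpotent ξ ∧ ∃ a ∈ A, NormedSpace.exp ξ = ext (hol a)}

/-- the real span of the logarithms of the elements of `A` -/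
def LieHull [FiniteDimensional ℝ E] (hol : Γ →* (E ≃ᵃ[ℝ] E)) (A : Subgroup Γ) :
    Submodule ℝ ((E × ℝ) →L[ℝ] (E × ℝ)) :=
  Submodule.span ℝ (Logs hol A)

/-- the action of `exp ξ` on `E`, identified with `E × {1}` -/
noncomputable def flow (ξ : (E × ℝ) →L[ℝ] (E × ℝ)) (x : E) : E := (NormedSpace.exp ξ (x, 1)).1

/-- The real span of the logarithms is a commutative Lie algebra of nilpotent operators, invariant
under conjugation by the holonomy of `H`, its exponentials are affine maps of `E`, all elements of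
`A` have logarithms, and the logarithms form a lattice. -/
structure AbelianHull [FiniteDimensional ℝ E] (hol : Γ →* (E ≃ᵃ[ℝ] E)) (H A : Subgroup Γ) :
    Prop where
  logs : ∀ a ∈ A, ∃ ξ ∈ Logs hol A, NormedSpace.exp ξ = ext (hol a)
  add : ∀ ξ ∈ Logs hol A, ∀ η ∈ Logs hol A, ξ + η ∈ Logs hol A
  neg : ∀ ξ ∈ Logs hol A, -ξ ∈ Logs hol A
  comm : ∀ ξ ∈ LieHull hol A, ∀ η ∈ LieHull hol A, ξ * η = η * ξ
  nilpotent : ∀ ξ ∈ LieHull hol A, IsNilpotent ξ
  affine : ∀ ξ ∈ LieHull hol A, ∀ w : E × ℝ, (NormedSpace.exp ξ w).2 = w.2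
  conj : ∀ γ ∈ H, ∀ ξ ∈ LieHull hol A, ext (hol γ) * ξ * ext (hol γ⁻¹) ∈ LieHull hol A
  discrete : ∃ ε > 0, ∀ ξ ∈ Logs hol A, ‖ξ‖ < ε → ξ = 0
  cocompact : ∃ R : ℝ, ∀ ξ ∈ LieHull hol A, ∃ η ∈ Logs hol A, ‖ξ - η‖ ≤ R

/-- the group `exp (LieHull hol A)` acts on `Ω`, freely and properly -/
structure HullActs [FiniteDimensional ℝ E] (hol : Γ →* (E ≃ᵃ[ℝ] E)) (A : Subgroup Γ)
    (Ω : Set E) : Prop where
  invariant : ∀ ξ ∈ LieHull hol A, ∀ x ∈ Ω, flow ξ x ∈ Ω
  free : ∀ ξ ∈ LieHull hol A, ∀ x ∈ Ω, flow ξ x = x → ξ = 0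
  proper : ∀ C ⊆ Ω, IsCompact C → ∃ B : ℝ, ∀ ξ ∈ LieHull hol A, ∀ x ∈ C, flow ξ x ∈ C → ‖ξ‖ ≤ B

end

/-- Let `M = Γ \ X` be a closed affine manifold (or orbifold) with injective developing map, so that
it is the quotient of the domain `range dev` of `E`. Let `H` be a subgroup of finite index, and let
`A ≤ H` be an abelian subgroup with unipotent linear holonomy which is normalised by `H` up to
powers: for `γ` in `H` and `a` in `A` the element `γ * a ^ k * γ⁻¹` is in `A` for some `k ≠ 0`.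
Then the logarithms of the elements of `A` form a lattice in their real span `𝔞`, which is a
commutative algebra of nilpotent affine vector fields, the domain `range dev` is invariant under
the group `exp 𝔞`, and this group acts on it freely and properly; the dimension of `𝔞` is at most
the dimension of `E`. -/
theorem result (X Γ E : Type) [NormedAddCommGroup E] [NormedSpace ℝ E]
    [FiniteDimensional ℝ E] [TopologicalSpace X] [Nonempty X] [Group Γ] [MulAction Γ X]
    (dev : X → E) (hol : Γ →* (E ≃ᵃ[ℝ] E)) (D : ClosedAffine X Γ E dev hol)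
    (hinj : Function.Injective dev) (H : Subgroup Γ) (hH : H.FiniteIndex)
    (A : Subgroup Γ) (hA : A ≤ H) (hnor : ∀ γ ∈ H, ∀ a ∈ A, ∃ k : ℕ, k ≠ 0 ∧ γ * a ^ k * γ⁻¹ ∈ A)
    (hcom : ∀ a ∈ A, ∀ b ∈ A, a * b = b * a) (hunip : ∀ a ∈ A, LinearlyUnipotent (hol a)) :
    AbelianHull hol H A ∧ HullActs hol A (range dev) ∧
      Module.finrank ℝ (LieHull hol A) ≤ Module.finrank ℝ E := by
  have D0 := Pool.Agent.U352.AF.toDom D.loc D.equi D.pd D.cc hinj
  have DH := D0.restrict H hH
  obtain ⟨x₀, hx₀⟩ : (range dev).Nonempty := range_nonempty dev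
  let hol' := hol.comp H.subtype
  let N : Subgroup H := A.subgroupOf H
  have hN : Pool.Agent.U352.UH.AN hol' N := by
    intro γ a ha
    obtain ⟨k, hk, h1⟩ := hnor γ γ.2 a ha
    exact ⟨k, hk, γ * a ^ k * γ⁻¹, h1, rfl⟩
  have h : Pool.Agent.U352.UH.UN hol' N := Pool.Agent.U352.UH.UN.of_linear
    (fun a ha b hb => by
      show hol (a * b : H) = hol (b * a : H)
      rw [Subgroup.coe_mul, Subgroup.coe_mul, hcom a ha b hb])
    (fun a ha => hunip a ha)
  have hL : ∀ ξ : (E × ℝ) →L[ℝ] (E × ℝ), ξ ∈ Logs hol A ↔ ξ ∈ Pool.Agent.U352.UH.Lam h := by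
    intro ξ
    rw [Pool.Agent.U352.UH.mem_Lam_iff]
    constructor
    · rintro ⟨h1, a, ha, h2⟩
      exact ⟨h1, ⟨a, hA ha⟩, ha, h2⟩
    · rintro ⟨h1, a, ha, h2⟩
      exact ⟨h1, a, ha, h2⟩
  have hLe : Logs hol A = (Pool.Agent.U352.UH.Lam h : Set ((E × ℝ) →L[ℝ] (E × ℝ))) :=
    Set.ext hL
  have hLH : LieHull hol A = Pool.Agent.U352.UH.aa h := by
    rw [LieHull, hLe]
    rfl
  obtain ⟨d, ⟨e⟩⟩ := Pool.Agent.U352.UH.exists_co h
  have hfl : ∀ (v : EuclideanSpace ℝ (Fin d)) (x : E),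
      flow (Pool.Agent.U352.UH.jj e v) x = Pool.Agent.U352.UH.Pe e v x := fun v x => rfl
  refine ⟨⟨?_, ?_, ?_, ?_, ?_, ?_, ?_, ?_, ?_⟩, ⟨?_, ?_, ?_⟩, ?_⟩
  · intro a ha
    obtain ⟨ξ, h1, h2⟩ := Pool.Agent.U352.UH.exists_Lam h (a := ⟨a, hA ha⟩) ha
    exact ⟨ξ, (hL ξ).2 h1, h2⟩
  · exact fun ξ hξ η hη => (hL _).2 (AddSubgroup.add_mem _ ((hL ξ).1 hξ) ((hL η).1 hη))
  · exact fun ξ hξ => (hL _).2 (AddSubgroup.neg_mem _ ((hL ξ).1 hξ))
  · intro ξ hξ η hη
    rw [hLH] at hξ hη
    exact (Pool.Agent.U352.UH.aa_comm h hξ hη).eq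
  · intro ξ hξ
    rw [hLH] at hξ
    exact (Pool.Agent.U352.UH.aa_prop h hξ).2
  · intro ξ hξ w
    rw [hLH] at hξ
    exact Pool.Agent.U352.UH.ex_snd h hξ w
  · intro γ hγ ξ hξ
    rw [hLH] at hξ ⊢
    exact Pool.Agent.U352.UH.Ad_aa h hN ⟨γ, hγ⟩ hξ
  · obtain ⟨ε, hε, h1⟩ := Pool.Agent.U352.UH.Lam_gap DH hx₀ h
    exact ⟨ε, hε, fun ξ hξ => h1 ξ ((hL ξ).1 hξ)⟩
  · obtain ⟨R, hR⟩ := Pool.Agent.U352.UH.lattice_near DH hx₀ e
    have hcont := Pool.Agent.U352.UH.jj_cont e
    let J : EuclideanSpace ℝ (Fin d) →L[ℝ] ((E × ℝ) →L[ℝ] (E × ℝ)) :=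
      ⟨Pool.Agent.U352.UH.jj e, hcont⟩
    refine ⟨‖J‖ * R, fun ξ hξ => ?_⟩
    rw [hLH] at hξ
    obtain ⟨v, rfl⟩ := Pool.Agent.U352.UH.jj_surj e hξ
    obtain ⟨u, hu, huv⟩ := hR v
    refine ⟨Pool.Agent.U352.UH.jj e u, (hL _).2 hu, ?_⟩
    rw [← map_sub]
    exact (J.le_opNorm (v - u)).trans (mul_le_mul_of_nonneg_left huv (norm_nonneg J))
  · intro ξ hξ x hx
    rw [hLH] at hξ
    exact Pool.Agent.U352.UH.hull_inv DH h hN hx hξ
  · intro ξ hξ x hx hf
    rw [hLH] at hξ
    obtain ⟨v, rfl⟩ := Pool.Agent.U352.UH.jj_surj e hξ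
    rw [Pool.Agent.U352.UH.Pe_free DH e hN hx hf, map_zero]
  · intro C hC hCc
    obtain ⟨B, hB⟩ := Pool.Agent.U352.UH.hull_proper DH e hN hCc hC
    have hcont := Pool.Agent.U352.UH.jj_cont e
    let J : EuclideanSpace ℝ (Fin d) →L[ℝ] ((E × ℝ) →L[ℝ] (E × ℝ)) :=
      ⟨Pool.Agent.U352.UH.jj e, hcont⟩
    refine ⟨‖J‖ * B, fun ξ hξ x hx hf => ?_⟩
    rw [hLH] at hξ
    obtain ⟨v, rfl⟩ := Pool.Agent.U352.UH.jj_surj e hξ
    exact (J.le_opNorm v).trans (mul_le_mul_of_nonneg_left (hB v x hx hf) (norm_nonneg J))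
  · rw [hLH]
    exact Pool.Agent.U352.UH.rank_le DH h hN hx₀

end Pool.Agent.Results.MP_df2bd8_gt.UnipotentHull
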